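import Pool.Agent.H629.CG.Stm

/-!
# Project CG, step M1: the intensity of the limit measure
-/

set_option autoImplicit false

namespace Pool.Agent.H200.CG.M1

open MeasureTheory ProbabilityTheory Filter Topology Set
open scoped ENNReal NNReal
open Pool.Agent.H629.CG

/-- truncation -/
noncomputable def GR (R : ℝ) (x : ℝ) : ℝ := max (min x R) 0

theorem GR_cont (R : ℝ) : Continuous (GR R) :=
  (continuous_id.min continuous_const).max continuous_const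

theorem GR_nonneg (R x : ℝ) : 0 ≤ GR R x := le_max_right _ _

theorem GR_le {R : ℝ} (hR : 0 ≤ R) (x : ℝ) : GR R x ≤ R := max_le (min_le_right _ _) hR

theorem GR_le_self {R x : ℝ} (hx : 0 ≤ x) : GR R x ≤ x := max_le (min_le_left _ _) hx

theorem GR_abs {R : ℝ} (hR : 0 ≤ R) (x : ℝ) : |GR R x| ≤ R := by
  rw [abs_of_nonneg (GR_nonneg R x)]
  exact GR_le hR x

theorem GR_eq {R x : ℝ} (hx : 0 ≤ x) (h : x ≤ R) : GR R x = x := by
  unfold GR
  rw [min_eq_left h, max_eq_left hx]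

/-- integral of a nonnegative function, bounded by the lower integral -/
theorem integral_le_toReal {Ω : Type} [MeasurableSpace Ω] (P : Measure Ω) (f : Ω → ℝ)
    (hf : ∀ ω, 0 ≤ f ω) (I : ℝ≥0∞) (hI : I ≠ ∞) (h : ∫⁻ ω, ENNReal.ofReal (f ω) ∂P ≤ I) :
    ∫ ω, f ω ∂P ≤ I.toReal := by
  by_cases hm : AEStronglyMeasurable f P
  · rw [integral_eq_lintegral_of_nonneg_ae (Eventually.of_forall hf) hm]
    exact ENNReal.toReal_mono hI h
  · rw [integral_non_aestronglyMeasurable hm]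
    exact ENNReal.toReal_nonneg

/-- the mean of the mass of a weight -/
theorem mean_mass {Ω : Type} [MeasurableSpace Ω] (P : Measure Ω) [IsProbabilityMeasure P]
    (X : ℝ → Ω → ℝ) (hX : Measurable (Function.uncurry X))
    (hmean : ∀ u ∈ Ico (0 : ℝ) 1, ∫⁻ ω, ex (X u ω) ∂P = 1) (ψ : ℝ → ℝ) (hψ : Continuous ψ)
    (hψ0 : ∀ u, 0 ≤ ψ u) :
    ∫⁻ ω, ENNReal.ofReal (∫ u in Icc (0 : ℝ) 1, ψ u * Real.exp (X u ω)) ∂P ≤
      ∫⁻ u in Icc (0 : ℝ) 1, ENNReal.ofReal (ψ u) := by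
  have hm : Measurable (fun p : ℝ × Ω => ENNReal.ofReal (ψ p.1 * Real.exp (X p.1 p.2))) := by
    apply ENNReal.measurable_ofReal.comp
    exact (hψ.measurable.comp measurable_fst).mul (Real.measurable_exp.comp hX)
  have h1 : ∀ ω, ENNReal.ofReal (∫ u in Icc (0 : ℝ) 1, ψ u * Real.exp (X u ω)) ≤
      ∫⁻ u in Icc (0 : ℝ) 1, ENNReal.ofReal (ψ u * Real.exp (X u ω)) := by
    intro ω
    have hmω : Measurable fun u => ψ u * Real.exp (X u ω) :=
      hψ.measurable.mul (Real.measurable_exp.comp (hX.comp (measurable_id.prodMk measurable_const)))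
    rw [integral_eq_lintegral_of_nonneg_ae
      (Eventually.of_forall fun u => mul_nonneg (hψ0 u) (Real.exp_pos _).le)
      hmω.aestronglyMeasurable]
    exact ENNReal.ofReal_toReal_le
  refine (lintegral_mono h1).trans ?_
  have hm2 : Measurable (Function.uncurry fun (ω : Ω) (u : ℝ) =>
      ENNReal.ofReal (ψ u * Real.exp (X u ω))) := hm.comp measurable_swap
  rw [lintegral_lintegral_swap hm2.aemeasurable]
  refine le_of_eq ?_
  have hae : ∀ᵐ u ∂(volume.restrict (Icc (0 : ℝ) 1)), u ∈ Ico (0 : ℝ) 1 := by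
    rw [ae_restrict_iff' measurableSet_Icc]
    have h2 : ∀ᵐ u : ℝ, u ≠ 1 := by
      have h3 : volume {(1 : ℝ)} = 0 := by simp
      exact measure_eq_zero_iff_ae_notMem.mp h3
    filter_upwards [h2] with u hu hu'
    exact ⟨hu'.1, lt_of_le_of_ne hu'.2 hu⟩
  refine lintegral_congr_ae ?_
  filter_upwards [hae] with u hu
  have h4 : ∀ ω, ENNReal.ofReal (ψ u * Real.exp (X u ω)) = ENNReal.ofReal (ψ u) * ex (X u ω) := by
    intro ω
    rw [ENNReal.ofReal_mul (hψ0 u)]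
    rfl
  simp only [h4]
  have h5 : Measurable fun ω => ex (X u ω) :=
    ENNReal.measurable_ofReal.comp (Real.measurable_exp.comp
      (hX.comp (measurable_const.prodMk measurable_id)))
  rw [lintegral_const_mul _ h5, hmean u hu, mul_one]

section main

variable {ε₀ : ℝ} {Ω : ℝ → Type} [∀ ε, MeasurableSpace (Ω ε)]
  {P : ∀ ε, Measure (Ω ε)} {X : ∀ ε, ℝ → Ω ε → ℝ} {Ω' : Type} [MeasurableSpace Ω']
  {P' : Measure Ω'} [IsProbabilityMeasure P'] {M : Ω' → Measure ℝ}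

theorem psi_fin {ψ : ℝ → ℝ} (hψ : Continuous ψ) :
    ∫⁻ u in Icc (0 : ℝ) 1, ENNReal.ofReal (ψ u) ≠ ∞ := by
  have h : IntegrableOn ψ (Icc (0 : ℝ) 1) := hψ.continuousOn.integrableOn_compact isCompact_Icc
  have h2 := h.2
  refine ne_of_lt (lt_of_le_of_lt (lintegral_mono fun u => ?_) h2)
  exact Real.ofReal_le_enorm (ψ u)

/-- the limit of the truncated means -/
theorem trunc_bound (hε : 0 < ε₀) (hMn : Mn ε₀ Ω P X) (hM : IsLimit P X P' M) {ψ : ℝ → ℝ}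
    (hψ : Continuous ψ) (hψ0 : ∀ u, 0 ≤ ψ u) {R : ℝ} (hR : 0 ≤ R) :
    ∫ ω, GR R (∫ u, ψ u ∂(M ω)) ∂P' ≤ (∫⁻ u in Icc (0 : ℝ) 1, ENNReal.ofReal (ψ u)).toReal := by
  have hlim := hM.lim ψ hψ hψ0 (GR R) (GR_cont R) ⟨R, GR_abs hR⟩
  refine le_of_tendsto hlim ?_
  have hev : ∀ᶠ ε in 𝓝[>] (0 : ℝ), ε ∈ Ioo 0 ε₀ := Ioo_mem_nhdsGT hε
  filter_upwards [hev] with ε hεm
  have := hMn.prob ε hεm
  refine integral_le_toReal (P ε) _ (fun ω => GR_nonneg _ _) _ (psi_fin hψ) ?_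
  refine le_trans (lintegral_mono fun ω => ?_)
    (mean_mass (P ε) (X ε) (hMn.meas ε hεm) (hMn.mean ε hεm) ψ hψ hψ0)
  refine ENNReal.ofReal_le_ofReal (GR_le_self ?_)
  exact integral_nonneg fun u => mul_nonneg (hψ0 u) (Real.exp_pos _).le

theorem integral_M (ψ : ℝ → ℝ) (hψ : Continuous ψ) (hψ0 : ∀ u, 0 ≤ ψ u) (ω : Ω') :
    ∫ u, ψ u ∂(M ω) = (∫⁻ u, ENNReal.ofReal (ψ u) ∂(M ω)).toReal :=
  integral_eq_lintegral_of_nonneg_ae (Eventually.of_forall hψ0) hψ.aestronglyMeasurable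

theorem meas_Z (hM : IsLimit P X P' M) {ψ : ℝ → ℝ} (hψ : Continuous ψ) (hψ0 : ∀ u, 0 ≤ ψ u) :
    Measurable fun ω => ∫ u, ψ u ∂(M ω) := by
  have h1 : Measurable fun ω => ∫⁻ u, ENNReal.ofReal (ψ u) ∂(M ω) :=
    (Measure.measurable_lintegral (ENNReal.measurable_ofReal.comp hψ.measurable)).comp hM.meas
  have h2 : (fun ω => ∫ u, ψ u ∂(M ω)) = fun ω => (∫⁻ u, ENNReal.ofReal (ψ u) ∂(M ω)).toReal := by
    funext ω
    exact integral_M ψ hψ hψ0 ω
  rw [h2]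
  exact h1.ennreal_toReal

theorem trunc_lintegral (hε : 0 < ε₀) (hMn : Mn ε₀ Ω P X) (hM : IsLimit P X P' M) {ψ : ℝ → ℝ}
    (hψ : Continuous ψ) (hψ0 : ∀ u, 0 ≤ ψ u) {R : ℝ} (hR : 0 ≤ R) :
    ∫⁻ ω, ENNReal.ofReal (GR R (∫ u, ψ u ∂(M ω))) ∂P' ≤
      ∫⁻ u in Icc (0 : ℝ) 1, ENNReal.ofReal (ψ u) := by
  have hm : Measurable fun ω => GR R (∫ u, ψ u ∂(M ω)) :=
    (GR_cont R).measurable.comp (meas_Z hM hψ hψ0)
  have hint : Integrable (fun ω => GR R (∫ u, ψ u ∂(M ω))) P' := by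
    refine Integrable.of_bound hm.aestronglyMeasurable R (Eventually.of_forall fun ω => ?_)
    rw [Real.norm_eq_abs]
    exact GR_abs hR _
  rw [← ofReal_integral_eq_lintegral_ofReal hint (Eventually.of_forall fun ω => GR_nonneg _ _)]
  refine (ENNReal.ofReal_le_ofReal (trunc_bound hε hMn hM hψ hψ0 hR)).trans ?_
  exact ENNReal.ofReal_toReal_le

theorem full_lintegral (hε : 0 < ε₀) (hMn : Mn ε₀ Ω P X) (hM : IsLimit P X P' M) {ψ : ℝ → ℝ}
    (hψ : Continuous ψ) (hψ0 : ∀ u, 0 ≤ ψ u) :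
    ∫⁻ ω, ENNReal.ofReal (∫ u, ψ u ∂(M ω)) ∂P' ≤
      ∫⁻ u in Icc (0 : ℝ) 1, ENNReal.ofReal (ψ u) := by
  have hm : ∀ n : ℕ, Measurable fun ω => ENNReal.ofReal (GR n (∫ u, ψ u ∂(M ω))) := fun n =>
    ENNReal.measurable_ofReal.comp ((GR_cont n).measurable.comp (meas_Z hM hψ hψ0))
  have hf := lintegral_liminf_le (μ := P') (u := (atTop : Filter ℕ)) hm
  have h1 : ∀ ω, liminf (fun n : ℕ => ENNReal.ofReal (GR n (∫ u, ψ u ∂(M ω)))) atTop =
      ENNReal.ofReal (∫ u, ψ u ∂(M ω)) := by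
    intro ω
    refine Tendsto.liminf_eq ?_
    refine tendsto_const_nhds.congr' ?_
    obtain ⟨N, hN⟩ := exists_nat_ge (∫ u, ψ u ∂(M ω))
    filter_upwards [eventually_ge_atTop N] with n hn
    rw [GR_eq (integral_nonneg hψ0)]
    exact hN.trans (by exact_mod_cast hn)
  simp only [h1] at hf
  refine hf.trans ?_
  refine liminf_le_of_le (by isBoundedDefault) ?_
  intro b hb
  obtain ⟨n, hn⟩ := hb.exists
  exact hn.trans (trunc_lintegral hε hMn hM hψ hψ0 (Nat.cast_nonneg n))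

theorem full_lintegral2 (hε : 0 < ε₀) (hMn : Mn ε₀ Ω P X) (hM : IsLimit P X P' M) {ψ : ℝ → ℝ}
    (hψ : Continuous ψ) (hψ0 : ∀ u, 0 ≤ ψ u) :
    ∫⁻ ω, ∫⁻ u, ENNReal.ofReal (ψ u) ∂(M ω) ∂P' ≤
      ∫⁻ u in Icc (0 : ℝ) 1, ENNReal.ofReal (ψ u) := by
  refine le_trans (le_of_eq ?_) (full_lintegral hε hMn hM hψ hψ0)
  refine lintegral_congr_ae ?_
  obtain ⟨C, hC⟩ := isCompact_Icc.exists_bound_of_continuousOn (s := Icc (0 : ℝ) 1) (f := ψ)
    hψ.continuousOn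
  filter_upwards [hM.fin, hM.supp] with ω hfin hsupp
  rw [integral_M ψ hψ hψ0 ω, ENNReal.ofReal_toReal]
  have h1 : ∀ᵐ u ∂(M ω), u ∈ Icc (0 : ℝ) 1 := by
    rw [ae_iff]
    exact hsupp
  have h2 : ∫⁻ u, ENNReal.ofReal (ψ u) ∂(M ω) ≤ ∫⁻ _u, ENNReal.ofReal C ∂(M ω) := by
    refine lintegral_mono_ae ?_
    filter_upwards [h1] with u hu
    exact ENNReal.ofReal_le_ofReal ((le_abs_self _).trans (hC u hu))
  rw [lintegral_const] at h2
  exact ne_of_lt (h2.trans_lt (ENNReal.mul_lt_top ENNReal.ofReal_lt_top hfin))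

/-- **M1** -/
theorem intensity (hε : 0 < ε₀) (hMn : Mn ε₀ Ω P X) (hM : IsLimit P X P' M) :
    P'.bind M ≤ volume.restrict (Icc (0 : ℝ) 1) := by
  set J : Measure ℝ := P'.bind M with hJ
  have hbind : ∀ g : ℝ → ℝ≥0∞, Measurable g →
      ∫⁻ u, g u ∂J = ∫⁻ ω, ∫⁻ u, g u ∂(M ω) ∂P' := by
    intro g hg
    rw [hJ]
    exact Measure.lintegral_bind hM.meas.aemeasurable hg.aemeasurable
  have hcont : ∀ ψ : ℝ → ℝ, Continuous ψ → (∀ u, 0 ≤ ψ u) →
      ∫⁻ u, ENNReal.ofReal (ψ u) ∂J ≤ ∫⁻ u in Icc (0 : ℝ) 1, ENNReal.ofReal (ψ u) := by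
    intro ψ hψ hψ0
    rw [hbind (fun u => ENNReal.ofReal (ψ u)) (ENNReal.measurable_ofReal.comp hψ.measurable)]
    exact full_lintegral2 hε hMn hM hψ hψ0
  have hfin : IsFiniteMeasure J := by
    refine ⟨?_⟩
    have h := hcont (fun _ => 1) continuous_const (fun _ => zero_le_one)
    simp only [ENNReal.ofReal_one, lintegral_one] at h
    refine h.trans_lt ?_
    rw [Measure.restrict_apply_univ, Real.volume_Icc]
    exact ENNReal.ofReal_lt_top
  have hclosed : ∀ F : Set ℝ, IsClosed F → J F ≤ volume.restrict (Icc (0 : ℝ) 1) F := by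
    intro F hF
    have hδ : ∀ n : ℕ, (0 : ℝ) < 1 / ((n : ℝ) + 1) := fun n => by positivity
    have hl := tendsto_one_div_add_atTop_nhds_zero_nat (𝕜 := ℝ)
    have t1 := tendsto_lintegral_thickenedIndicator_of_isClosed J hF hδ hl
    have t2 := tendsto_lintegral_thickenedIndicator_of_isClosed
      (volume.restrict (Icc (0 : ℝ) 1)) hF hδ hl
    refine le_of_tendsto_of_tendsto' t1 t2 fun n => ?_
    have h := hcont (fun u => (thickenedIndicator (hδ n) F u : ℝ))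
      (NNReal.continuous_coe.comp (thickenedIndicator (hδ n) F).continuous)
      (fun u => NNReal.coe_nonneg _)
    simp only [ENNReal.ofReal_coe_nnreal] at h
    exact h
  refine Measure.le_iff.mpr fun A hA => ?_
  rw [hA.measure_eq_iSup_isClosed_of_ne_top (measure_ne_top J A)]
  refine iSup_le fun K => iSup_le fun hK => iSup_le fun hKc => ?_
  exact (hclosed K hKc).trans (measure_mono hK)

end main

/-- **M1** -/
theorem t_M1 : S_M1 := by
  intro ε₀ Ω _ P X Ω' _ P' _ M hε hMn hM g hg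
  have h := Measure.lintegral_bind (m := P') (μ := M) hM.meas.aemeasurable
    (f := g) hg.aemeasurable
  rw [← h]
  exact lintegral_mono' (intensity hε hMn hM) le_rfl

end Pool.Agent.H200.CG.M1
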